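import Pool.Agent.H229R2.Config

set_option autoImplicit false
set_option linter.unusedSectionVars false
set_option linter.unusedVariables false

namespace Pool.Agent.Results.MP_49538b_co.NucleiClassification

open Pool.Agent.H229R2

variable {F : Type*} [Field F]

/-- Lines of the affine plane `AG(2, q)` with point set `F × F`, where `F = GF(q)`: the cosets
`{P + t v : t ∈ F}` of the one-dimensional subspaces. -/
def IsLine (ℓ : Set (F × F)) : Prop :=
  ∃ P v : F × F, v ≠ 0 ∧ ℓ = {Q | ∃ t : F, Q = P + t • v}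

/-- A nucleus of `S`: a point `P` outside `S` such that each line through `P` meets `S`. -/
def IsNucleus (S : Set (F × F)) (P : F × F) : Prop :=
  P ∉ S ∧ ∀ ℓ : Set (F × F), IsLine ℓ → P ∈ ℓ → (ℓ ∩ S).Nonempty

/-- The set of all nuclei of `S`. -/
def nuclei (S : Set (F × F)) : Set (F × F) := {P | IsNucleus S P}

/-- Type (i): the points of a line `ℓ` together with one point not on `ℓ`. -/
def TypeI (S : Set (F × F)) : Prop :=
  ∃ ℓ : Set (F × F), IsLine ℓ ∧ ∃ P : F × F, P ∉ ℓ ∧ S = insert P ℓ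

/-- `T` is the point set of a Desargues configuration: it consists of ten points, namely a centre
`p`, the vertices `a 0, a 1, a 2` and `b 0, b 1, b 2` of two triangles and three further points
`c 0, c 1, c 2`, and there are ten lines, each of which contains exactly three of the ten points:
the lines `ray i` through `p, a i, b i`, the sides `sideA i` through `a j, a k, c i` and
`sideB i` through `b j, b k, c i` (with `i, j, k` distinct) and the axis through
`c 0, c 1, c 2`. -/
def IsDesargues (T : Set (F × F)) : Prop :=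
  T.ncard = 10 ∧
  ∃ (p : F × F) (a b c : Fin 3 → F × F) (ray sideA sideB : Fin 3 → Set (F × F))
    (axis : Set (F × F)),
    T = {p} ∪ Set.range a ∪ Set.range b ∪ Set.range c ∧
    (∀ i, IsLine (ray i) ∧ ray i ∩ T = {p, a i, b i}) ∧
    (∀ i, IsLine (sideA i) ∧ ∀ j k, i ≠ j → i ≠ k → j ≠ k → sideA i ∩ T = {a j, a k, c i}) ∧
    (∀ i, IsLine (sideB i) ∧ ∀ j k, i ≠ j → i ≠ k → j ≠ k → sideB i ∩ T = {b j, b k, c i}) ∧
    IsLine axis ∧ axis ∩ T = {c 0, c 1, c 2}

/-- Type (ii): `q = 5` and `S` is a set of six points with exactly four nuclei such that `S`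
together with its nuclei is the point set of a Desargues configuration. -/
def TypeII (S : Set (F × F)) : Prop :=
  Nat.card F = 5 ∧ S.ncard = 6 ∧ (nuclei S).ncard = 4 ∧ IsDesargues (S ∪ nuclei S)

/-- the line through `P` with direction `v` -/
def ln (P v : F × F) : Set (F × F) := {Q | ∃ t : F, Q = P + t • v}

theorem isLine_ln (P : F × F) {v : F × F} (hv : v ≠ 0) : IsLine (ln P v) := ⟨P, v, hv, rfl⟩

theorem mem_ln_self (P v : F × F) : P ∈ ln P v := ⟨0, by simp⟩

theorem mem_ln [DecidableEq F] {P v Q : F × F} (hv : v ≠ 0) : Q ∈ ln P v ↔ dt (Q - P) v = 0 := by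
  constructor
  · rintro ⟨t, rfl⟩
    rw [add_sub_cancel_left, dt_smul_left, dt_self, mul_zero]
  · intro h
    obtain ⟨t, ht⟩ := exists_smul_of_dt hv h
    exact ⟨t, by rw [← ht]; abel⟩

section Main

variable [Fintype F] [DecidableEq F]

theorem nucData (S N : Finset (F × F)) (hS : S.card = Fintype.card F + 1)
    (hN : N.card = Fintype.card F - 1) (hnuc : ∀ x, x ∈ N ↔ IsNucleus (S : Set (F × F)) x) :
    NucData S N := by
  refine ⟨hS, hN, ?_, ?_⟩
  · intro n hn o
    obtain ⟨Q, hQ, hQS⟩ := ((hnuc n).mp hn).2 (ln n (bar o)) (isLine_ln n (bar_ne_zero o))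
      (mem_ln_self _ _)
    exact ⟨Q, hQS, (mem_ln (bar_ne_zero o)).mp hQ⟩
  · intro n hn h
    exact ((hnuc n).mp hn).1 h

theorem card_ln (P : F × F) {v : F × F} (hv : v ≠ 0) :
    ((Finset.univ : Finset (F × F)).filter (fun Q => dt (Q - P) v = 0)).card
      = Fintype.card F := by
  have h1 : (Finset.univ : Finset (F × F)).filter (fun Q => dt (Q - P) v = 0)
      = (Finset.univ : Finset F).image (fun t => P + t • v) := by
    ext Q
    simp only [Finset.mem_filter, Finset.mem_univ, true_and, Finset.mem_image]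
    rw [← mem_ln hv]
    constructor
    · rintro ⟨t, ht⟩; exact ⟨t, ht.symm⟩
    · rintro ⟨t, ht⟩; exact ⟨t, ht.symm⟩
  rw [h1, Finset.card_image_of_injective, Finset.card_univ]
  intro t t' h
  simp only [add_right_inj] at h
  exact smul_left_injective F hv h

theorem typeI_of_not (S : Finset (F × F)) (hS : S.card = Fintype.card F + 1) {s : F × F}
    (hs : s ∈ S) {o : Option F} (h : ¬ mu S s o + 2 ≤ Fintype.card F) :
    TypeI (S : Set (F × F)) := by
  set A := (Finset.univ : Finset (F × F)).filter (fun Q => dt (Q - s) (bar o) = 0) with hA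
  have hAc : A.card = Fintype.card F := card_ln s (bar_ne_zero o)
  have hsub : Se S s o ⊆ A := by
    intro x hx
    rw [hA, Finset.mem_filter]
    exact ⟨Finset.mem_univ _, (mem_Se.mp hx).2⟩
  have hSe := Se_card hs o
  have heq : Se S s o = A := Finset.eq_of_subset_of_card_le hsub (by omega)
  have hAS : A ⊆ S := by
    rw [← heq]
    intro x hx
    exact (mem_Se.mp hx).1
  have hdiff : (S \ A).card = 1 := by
    rw [Finset.card_sdiff_of_subset hAS, hS, hAc]; omega
  obtain ⟨P, hP⟩ := Finset.card_eq_one.mp hdiff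
  have hPm : P ∈ S \ A := by rw [hP]; exact Finset.mem_singleton_self _
  rw [Finset.mem_sdiff] at hPm
  have hmemA : ∀ Q, Q ∈ A ↔ Q ∈ ln s (bar o) := by
    intro Q
    rw [mem_ln (bar_ne_zero o), hA, Finset.mem_filter]
    simp
  refine ⟨ln s (bar o), isLine_ln _ (bar_ne_zero o), P, ?_, ?_⟩
  · rw [← hmemA]; exact hPm.2
  · ext Q
    rw [Set.mem_insert_iff, ← hmemA, Finset.mem_coe]
    constructor
    · intro hQ
      by_cases hQA : Q ∈ A
      · right; exact hQA
      · left
        have : Q ∈ S \ A := Finset.mem_sdiff.mpr ⟨hQ, hQA⟩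
        rw [hP, Finset.mem_singleton] at this
        exact this
    · rintro (rfl | h)
      · exact hPm.1
      · exact hAS h

theorem desargues_of_config {S N : Finset (F × F)} (h : NucData S N)
    (NT : ∀ s ∈ S, ∀ o, mu S s o + 2 ≤ Fintype.card F) {n : Fin 4 → F × F}
    {s : Fin 4 → Fin 4 → F × F} (C : Config S N n s)
    (hq : Fintype.card F = 5) : IsDesargues ((S : Set (F × F)) ∪ (N : Set (F × F))) := by
  have hmemT : ∀ Q : F × F, Q ∈ ((S : Set (F × F)) ∪ (N : Set (F × F))) ↔ (Q ∈ S ∨ Q ∈ N) := by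
    intro Q; simp
  have hniN : ∀ k, n k ∈ N := fun k => (C.hN _).mpr ⟨k, rfl⟩
  have hsS : ∀ k l, k ≠ l → s k l ∈ S := fun k l hkl => (C.hS _).mpr ⟨k, l, hkl, rfl⟩
  have hnw : ∀ i j, i ≠ j → n j - n i ≠ 0 :=
    fun i j hij => sub_ne_zero.mpr (fun e => hij (C.ninj e).symm)
  have hsw : ∀ i j k, i ≠ j → i ≠ k → j ≠ k → s i k - s i j ≠ 0 := by
    intro i j k hij hik hjk
    apply sub_ne_zero.mpr
    intro e
    rcases C.sinj _ _ _ _ hik hij e with ⟨_, b⟩ | ⟨a, b⟩
    · exact hjk b.symm
    · exact hij a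
  have hray : ∀ i j, i ≠ j → ln (n i) (n j - n i) ∩ ((S : Set (F × F)) ∪ (N : Set (F × F)))
      = {n i, n j, s i j} := by
    intro i j hij
    ext Q
    rw [Set.mem_inter_iff, hmemT, mem_ln (hnw i j hij), ray_iff h C hij]
    simp only [Set.mem_insert_iff, Set.mem_singleton_iff]
  have hsec : ∀ i j k, i ≠ j → i ≠ k → j ≠ k →
      ln (s i j) (s i k - s i j) ∩ ((S : Set (F × F)) ∪ (N : Set (F × F)))
      = {s i j, s i k, s j k} := by
    intro i j k hij hik hjk
    ext Q
    rw [Set.mem_inter_iff, hmemT, mem_ln (hsw i j k hij hik hjk), sec_iff h NT C hij hik hjk]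
    simp only [Set.mem_insert_iff, Set.mem_singleton_iff]
  refine ⟨?_, n 0, fun i => n i.succ, fun i => s 0 i.succ,
    fun i => s (i + 1).succ (i + 2).succ,
    fun i => ln (n 0) (n i.succ - n 0),
    fun i => ln (n (i + 1).succ) (n (i + 2).succ - n (i + 1).succ),
    fun i => ln (s 0 (i + 1).succ) (s 0 (i + 2).succ - s 0 (i + 1).succ),
    ln (s 1 2) (s 1 3 - s 1 2), ?_, ?_, ?_, ?_, ?_, ?_⟩
  · -- ten points
    have hdisj : Disjoint (S : Set (F × F)) (N : Set (F × F)) := by
      rw [Set.disjoint_left]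
      intro x hx hx'
      exact h.hdis x hx' hx
    rw [Set.ncard_union_eq hdisj (Finset.finite_toSet _) (Finset.finite_toSet _),
      Set.ncard_coe_finset, Set.ncard_coe_finset, h.hS, h.hN, hq]
  · ext Q
    rw [hmemT]
    simp only [Set.mem_union, Set.mem_singleton_iff, Set.mem_range]
    constructor
    · rintro (hQ | hQ)
      · obtain ⟨i, j, hij, rfl⟩ := (C.hS _).mp hQ
        have key : ∀ i j : Fin 4, i ≠ j → (∃ k : Fin 3, (i = 0 ∧ j = k.succ) ∨ (j = 0 ∧ i = k.succ))
            ∨ (∃ k : Fin 3, (i = (k + 1).succ ∧ j = (k + 2).succ) ∨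
              (j = (k + 1).succ ∧ i = (k + 2).succ)) := by decide
        rcases key i j hij with ⟨k, ⟨rfl, rfl⟩ | ⟨rfl, rfl⟩⟩ | ⟨k, ⟨rfl, rfl⟩ | ⟨rfl, rfl⟩⟩
        · left; right; exact ⟨k, rfl⟩
        · left; right; exact ⟨k, C.symm _ _⟩
        · right; exact ⟨k, rfl⟩
        · right; exact ⟨k, C.symm _ _⟩
      · obtain ⟨i, rfl⟩ := (C.hN _).mp hQ
        left; left
        rcases Fin.eq_zero_or_eq_succ i with rfl | ⟨k, rfl⟩
        · left; rfl
        · right; exact ⟨k, rfl⟩
    · rintro (((rfl | ⟨k, rfl⟩) | ⟨k, rfl⟩) | ⟨k, rfl⟩)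
      · right; exact hniN 0
      · right; exact hniN _
      · left; exact hsS _ _ (Fin.succ_ne_zero k).symm
      · left
        apply hsS
        revert k
        decide
  · intro i
    have h0 : (0 : Fin 4) ≠ i.succ := (Fin.succ_ne_zero i).symm
    exact ⟨isLine_ln _ (hnw _ _ h0), hray _ _ h0⟩
  · intro i
    have h0 : (i + 1).succ ≠ (i + 2).succ := by revert i; decide
    refine ⟨isLine_ln _ (hnw _ _ h0), ?_⟩
    intro j k hij hik hjk
    simp only
    rw [hray _ _ h0]
    have key : ∀ i j k : Fin 3, i ≠ j → i ≠ k → j ≠ k →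
        (j = i + 1 ∧ k = i + 2) ∨ (j = i + 2 ∧ k = i + 1) := by decide
    rcases key i j k hij hik hjk with ⟨rfl, rfl⟩ | ⟨rfl, rfl⟩
    · rfl
    · exact Set.insert_comm _ _ _
  · intro i
    have h0 : (i + 1).succ ≠ (i + 2).succ := by revert i; decide
    have h1 : (0 : Fin 4) ≠ (i + 1).succ := (Fin.succ_ne_zero _).symm
    have h2 : (0 : Fin 4) ≠ (i + 2).succ := (Fin.succ_ne_zero _).symm
    refine ⟨isLine_ln _ (hsw _ _ _ h1 h2 h0), ?_⟩
    intro j k hij hik hjk
    simp only
    rw [hsec _ _ _ h1 h2 h0]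
    have key : ∀ i j k : Fin 3, i ≠ j → i ≠ k → j ≠ k →
        (j = i + 1 ∧ k = i + 2) ∨ (j = i + 2 ∧ k = i + 1) := by decide
    rcases key i j k hij hik hjk with ⟨rfl, rfl⟩ | ⟨rfl, rfl⟩
    · rfl
    · exact Set.insert_comm _ _ _
  · exact isLine_ln _ (hsw 1 2 3 (by decide) (by decide) (by decide))
  · rw [hsec 1 2 3 (by decide) (by decide) (by decide)]
    have e0 : s ((0 : Fin 3) + 1).succ ((0 : Fin 3) + 2).succ = s 2 3 := rfl
    have e1 : s ((1 : Fin 3) + 1).succ ((1 : Fin 3) + 2).succ = s 1 3 := C.symm 3 1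
    have e2 : s ((2 : Fin 3) + 1).succ ((2 : Fin 3) + 2).succ = s 1 2 := rfl
    simp only
    rw [e0, e1, e2]
    ext Q
    simp only [Set.mem_insert_iff, Set.mem_singleton_iff]
    tauto

theorem main (S : Set (F × F)) (hS : S.ncard = Fintype.card F + 1)
    (hN : (nuclei S).ncard = Fintype.card F - 1) : TypeI S ∨ TypeII S := by
  classical
  set S' : Finset (F × F) := (Set.toFinite S).toFinset with hS'
  set N' : Finset (F × F) := (Set.toFinite (nuclei S)).toFinset with hN'
  have hSc : (S' : Set (F × F)) = S := Set.Finite.coe_toFinset _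
  have hNc : (N' : Set (F × F)) = nuclei S := Set.Finite.coe_toFinset _
  have h1 : S'.card = Fintype.card F + 1 := by
    rw [← Set.ncard_coe_finset, hSc, hS]
  have h2 : N'.card = Fintype.card F - 1 := by
    rw [← Set.ncard_coe_finset, hNc, hN]
  have hnuc : ∀ x, x ∈ N' ↔ IsNucleus (S' : Set (F × F)) x := by
    intro x
    rw [hSc, ← Finset.mem_coe, hNc]
    rfl
  have hD := nucData S' N' h1 h2 hnuc
  by_cases NT : ∀ s ∈ S', ∀ o, mu S' s o + 2 ≤ Fintype.card F
  · right
    obtain ⟨hq, -⟩ := hD.lift.q_eq_five NT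
    obtain ⟨n, s, C⟩ := exists_config hD NT
    refine ⟨?_, ?_, ?_, ?_⟩
    · rw [Nat.card_eq_fintype_card, hq]
    · rw [hS, hq]
    · rw [hN, hq]
    · have := desargues_of_config hD NT C hq
      rwa [hSc, hNc] at this
  · left
    push Not at NT
    obtain ⟨s, hs, o, ho⟩ := NT
    have := typeI_of_not S' h1 hs (o := o) (by omega)
    rwa [hSc] at this

end Main

/-- For every finite field `F = GF(q)`, every set of `q + 1` points of `AG(2, q)` with exactly
`q - 1` nuclei is of type (i), or `q = 5` and it is of type (ii). -/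
theorem result {F : Type*} [Field F] [Finite F] (S : Set (F × F))
    (hS : S.ncard = Nat.card F + 1) (hN : (nuclei S).ncard = Nat.card F - 1) :
    TypeI S ∨ TypeII S := by
  classical
  have := Fintype.ofFinite F
  rw [Nat.card_eq_fintype_card] at hS hN
  exact main S hS hN

end Pool.Agent.Results.MP_49538b_co.NucleiClassification
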